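import Pool.Agent.H20.RT.Stmts

set_option autoImplicit false

open Finset

namespace Pool.RT

theorem VAR_split (f : ℕ → ℤ) (N : ℕ) : ∑ n ∈ Finset.range (10 * N), f n =
    ∑ q ∈ Finset.range N, ∑ s ∈ Finset.range 10, f (10 * q + s) := by
  induction N with
  | zero => simp
  | succ N ih =>
    rw [show 10 * (N + 1) = 10 * N + 10 by ring, Finset.sum_range_add, ih,
      Finset.sum_range_succ (fun q => ∑ s ∈ Finset.range 10, f (10 * q + s))]

theorem VAR_inner (D h : ℤ) (d : ℕ) (hd : d < 10) :
    ∑ s ∈ Finset.range 10, (10 * ((if s = d then (1 : ℤ) else 0) + D) - (h + 1)) ^ 2 =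
      10 * (10 * D - h) ^ 2 + 90 := by
  interval_cases d <;> simp [Finset.sum_range_succ] <;> ring

theorem VAR_thm : VARStmt := by
  intro h
  induction h with
  | zero =>
    intro d _
    simp [dc]
  | succ h ih =>
    intro d hd
    rw [pow_succ, mul_comm (10 ^ h) 10, VAR_split]
    have key : ∀ q ∈ Finset.range (10 ^ h), ∑ s ∈ Finset.range 10,
        (10 * (dc (h + 1) d (10 * q + s) : ℤ) - ((h + 1 : ℕ) : ℤ)) ^ 2 =
        10 * (10 * (dc h d q : ℤ) - (h : ℤ)) ^ 2 + 90 := by
      intro q _
      rw [← VAR_inner (dc h d q : ℤ) (h : ℤ) d hd]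
      refine Finset.sum_congr rfl ?_
      intro s hs
      have hs' : s < 10 := Finset.mem_range.mp hs
      have e1 : (10 * q + s) % 10 = s := by omega
      have e2 : (10 * q + s) / 10 = q := by omega
      rw [dc, e1, e2]
      push_cast
      rfl
    rw [Finset.sum_congr rfl key, Finset.sum_add_distrib, ← Finset.mul_sum, ih d hd,
      Finset.sum_const, Finset.card_range, nsmul_eq_mul]
    push_cast
    ring

end Pool.RT
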